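import Pool.Agent.helper3.T6R.Spec

set_option autoImplicit false

/-!
# Row `t6r:RBC` (MP_16912e_nt)

The number of ideals, `Y` small and `l` large.
-/

namespace Pool.Agent.T6R

open Finset NumberField Pool.Agent.helper3.FT Pool.Agent.helper47.RA Pool.Agent.T5 Pool.Agent.T6
open scoped nonZeroDivisors

theorem RBC_count {K : Type} [Field K] [NumberField K] (Q : QF K) (κ N Y Y₂ H l c : ℝ)
    (hfin : (GSR Q κ N Y Y₂ H).Finite)
    (hP : ∀ a ∈ IMset Q Y l, ∃ P : Finset (𝓞 K), (∀ α ∈ P, (a, α) ∈ GSR Q κ N Y Y₂ H) ∧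
      c ≤ (P.card : ℝ)) :
    c * ((IMset Q Y l).ncard : ℝ) ≤ ((GSR Q κ N Y Y₂ H).ncard : ℝ) := by
  classical
  by_cases hIM : (IMset Q Y l).Finite
  · choose! P hP1 hP2 using hP
    have h1 : (hIM.toFinset.sigma fun a => P a).card ≤ hfin.toFinset.card := by
      refine Finset.card_le_card_of_injOn (fun x => (x.1, x.2)) ?_ ?_
      · rintro ⟨a, α⟩ hx
        rw [Finset.mem_coe, Finset.mem_sigma] at hx
        rw [Set.Finite.coe_toFinset]
        exact hP1 a ((Set.Finite.mem_toFinset hIM).1 hx.1) α hx.2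
      · rintro ⟨a, α⟩ _ ⟨a', α'⟩ _ h
        simp only [Prod.mk.injEq] at h
        obtain ⟨rfl, rfl⟩ := h
        rfl
    rw [Finset.card_sigma] at h1
    rw [Set.ncard_eq_toFinset_card _ hIM, Set.ncard_eq_toFinset_card _ hfin]
    have h2 : c * (hIM.toFinset.card : ℝ) ≤ ((∑ a ∈ hIM.toFinset, (P a).card : ℕ) : ℝ) := by
      push_cast
      rw [mul_comm, ← nsmul_eq_mul]
      exact Finset.card_nsmul_le_sum _ _ _ fun a ha => hP2 a ((Set.Finite.mem_toFinset hIM).1 ha)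
    exact h2.trans (by exact_mod_cast h1)
  · rw [Set.Infinite.ncard hIM]
    simp

theorem RBC (hRCN : RCN_stmt) (hRIN : RIN_stmt) (hRBL : RBL_stmt) : RBC_stmt := by
  classical
  intro δ hδ hδ1
  obtain ⟨A, η₁, N₁, hA, hη₁, hC⟩ := hRCN (δ / 100) (by positivity)
  obtain ⟨N₂, hL⟩ := hRBL (1 / 500) δ (by norm_num) hδ hδ1
  obtain ⟨hfin, hsumm⟩ := hRIN
  have hA0 : 0 < A := by linarith
  refine ⟨min η₁ (δ / 8), δ / 8, max (max N₁ N₂) (max 1 (max (A ^ (8 / δ)) (4 ^ (16 / δ)))),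
    lt_min hη₁ (by positivity), by positivity, ?_⟩
  intro N Y l hN hY1 hY2 hl1 hl2
  have hN1 : N₁ ≤ N := le_trans (le_trans (le_max_left _ _) (le_max_left _ _)) hN
  have hN2 : N₂ ≤ N := le_trans (le_trans (le_max_right _ _) (le_max_left _ _)) hN
  have hN' : max 1 (max (A ^ (8 / δ)) (4 ^ (16 / δ))) ≤ N := le_trans (le_max_right _ _) hN
  have hN3 : 1 ≤ N := le_trans (le_max_left _ _) hN'
  have hN4 : A ^ (8 / δ) ≤ N := le_trans (le_trans (le_max_left _ _) (le_max_right _ _)) hN'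
  have hN5 : (4 : ℝ) ^ (16 / δ) ≤ N := le_trans (le_trans (le_max_right _ _) (le_max_right _ _)) hN'
  have hN0 : 0 < N := lt_of_lt_of_le one_pos hN3
  have hsq : 0 < √N := Real.sqrt_pos.2 hN0
  have hsN : √N * √N = N := Real.mul_self_sqrt hN0.le
  have hs1 : 1 ≤ √N := Real.one_le_sqrt.2 hN3
  have hl0 : 0 < 2 * l := lt_of_lt_of_le (Real.rpow_pos_of_pos hN0 _) hl1
  have hAδ : A ≤ N ^ (δ / 8) := by
    have h1 : (A ^ (8 / δ)) ^ (δ / 8) ≤ N ^ (δ / 8) :=
      Real.rpow_le_rpow (Real.rpow_nonneg hA0.le _) hN4 (by positivity)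
    rw [← Real.rpow_mul hA0.le] at h1
    have h2 : 8 / δ * (δ / 8) = 1 := by field_simp
    rwa [h2, Real.rpow_one] at h1
  have h4δ : (4 : ℝ) ≤ N ^ (δ / 16) := by
    have h1 : ((4 : ℝ) ^ (16 / δ)) ^ (δ / 16) ≤ N ^ (δ / 16) :=
      Real.rpow_le_rpow (Real.rpow_nonneg (by norm_num) _) hN5 (by positivity)
    rw [← Real.rpow_mul (by norm_num)] at h1
    have h2 : 16 / δ * (δ / 16) = 1 := by field_simp
    rwa [h2, Real.rpow_one] at h1
  set Y₂ : ℝ := A * N / (2 * l) with hY₂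
  have hY₂1 : 1 ≤ Y₂ := by
    rw [hY₂, le_div_iff₀ hl0, one_mul]
    calc 2 * l ≤ 4 * √N := hl2
      _ ≤ 4 * (√N * √N) := by nlinarith
      _ = 4 * N := by rw [hsN]
      _ ≤ A * N := by nlinarith
  have hY₂2 : Y₂ ≤ N ^ (1 / 2 + δ / 4) := by
    rw [hY₂, div_le_iff₀ hl0]
    have h1 : N ^ (1 / 2 - δ / 8) ≤ 2 * l := by
      refine le_trans (Real.rpow_le_rpow_of_exponent_le hN3 ?_) hl1
      linarith [min_le_right η₁ (δ / 8)]
    calc A * N ≤ N ^ (δ / 8) * N := mul_le_mul_of_nonneg_right hAδ hN0.le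
      _ = N ^ (1 / 2 + δ / 4) * N ^ (1 / 2 - δ / 8) := by
        rw [← Real.rpow_add hN0]
        nth_rw 2 [← Real.rpow_one N]
        rw [← Real.rpow_add hN0]
        congr 1
        ring
      _ ≤ N ^ (1 / 2 + δ / 4) * (2 * l) := mul_le_mul_of_nonneg_left h1 (Real.rpow_nonneg hN0.le _)
  have hYs : Y ≤ 4 * √N := by
    have h1 : N ^ (1 / 2 - δ) ≤ N ^ (1 / 2 : ℝ) := Real.rpow_le_rpow_of_exponent_le hN3 (by linarith)
    rw [← Real.sqrt_eq_rpow] at h1
    linarith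
  have hl1' : N ^ (1 / 2 - η₁) ≤ 2 * l := by
    refine le_trans (Real.rpow_le_rpow_of_exponent_le hN3 ?_) hl1
    linarith [min_le_left η₁ (δ / 8)]
  obtain ⟨F, hF, hFs⟩ := hsumm (1 / 500) N Y Y₂ (N ^ (δ / 100))
  -- the sum over the fields
  have hle : (1 / 4 : ℝ) * ∑ D ∈ DNR N, SF (fun _ E => ((IMset E.Q Y l).ncard : ℝ)) D ≤
      ∑ D ∈ DNR N, SF (fun _ E => ((GSR E.Q (1 / 500) N Y Y₂ (N ^ (δ / 100))).ncard : ℝ)) D := by
    rw [Finset.mul_sum]
    refine Finset.sum_le_sum fun D hD => ?_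
    unfold DNR at hD
    rw [Finset.mem_filter, Finset.mem_Icc] at hD
    obtain ⟨⟨hD1, hD2⟩, -, hD3⟩ := hD
    unfold SF
    split_ifs with h
    · have hQ : h.some.Q.D = D := h.some.hD
      refine RBC_count h.some.Q (1 / 500) N Y Y₂ (N ^ (δ / 100)) l (1 / 4)
        (hfin _ _ _ _ _ _ _) fun a ha => ?_
      obtain ⟨θ, hθ⟩ := ha
      obtain ⟨P, hP1, hP2⟩ := hC h.some.K h.some.Q N Y l a θ hN1 (by rw [hQ]; omega)
        (by rw [hQ]; exact hD3) (by
          rw [hQ]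
          have h2 : (D : ℝ) ≤ (⌊N⌋ : ℤ) := by exact_mod_cast hD2
          exact h2.trans (Int.floor_le N)) hYs hl1' hl2 hθ
      refine ⟨P, hP1, le_trans ?_ hP2⟩
      rw [div_le_div_iff₀ (by norm_num) hl0]
      linarith
    · rw [mul_zero]
  have h1 := hle.trans hFs
  -- the tuples
  have hcount : (F.card : ℝ) ≤ N ^ (δ / 100) * (N ^ (1 + 2 * (δ / 100))) ^ (1 - δ / 4) := by
    have hmaps : ∀ x ∈ F, x.1 ∈ Finset.Icc 1 ⌊N ^ (δ / 100)⌋₊ := by
      intro x hx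
      rw [Finset.mem_Icc]
      exact ⟨(hF x hx).1, Nat.le_floor (hF x hx).2.1⟩
    have hfib : ∀ d ∈ Finset.Icc 1 ⌊N ^ (δ / 100)⌋₊,
        ((F.filter (fun x => x.1 = d)).card : ℝ) ≤ (N ^ (1 + 2 * (δ / 100))) ^ (1 - δ / 4) := by
      intro d hd
      rw [Finset.mem_Icc] at hd
      have hd1 : (1 : ℝ) ≤ d := by exact_mod_cast hd.1
      have hd2 : (d : ℝ) ≤ N ^ (δ / 100) :=
        le_trans (by exact_mod_cast hd.2) (Nat.floor_le (Real.rpow_nonneg hN0.le _))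
      have hcard : (F.filter (fun x => x.1 = d)).card = ((F.filter (fun x => x.1 = d)).image Prod.snd).card := by
        rw [Finset.card_image_of_injOn]
        intro x hx y hy hxy
        rw [Finset.mem_coe, Finset.mem_filter] at hx hy
        exact Prod.ext (hx.2.trans hy.2.symm) hxy
      rw [hcard]
      have hNd : N ≤ N * (d : ℝ) ^ 2 := by nlinarith [one_le_pow₀ hd1 (n := 2)]
      have hNd0 : 0 < N * (d : ℝ) ^ 2 := lt_of_lt_of_le hN0 hNd
      have hb := hL (N * (d : ℝ) ^ 2) Y Y₂ (hN2.trans hNd) hY1 hY₂1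
        (hY2.trans (Real.rpow_le_rpow hN0.le hNd (by linarith)))
        (hY₂2.trans (Real.rpow_le_rpow hN0.le hNd (by linarith)))
        ((F.filter (fun x => x.1 = d)).image Prod.snd) (by
          intro t ht
          obtain ⟨x, hx, rfl⟩ := Finset.mem_image.1 ht
          rw [Finset.mem_filter] at hx
          have := (hF x hx.1).2.2.1
          rwa [hx.2] at this)
      refine hb.trans (Real.rpow_le_rpow hNd0.le ?_ (by linarith))
      have h2 : (d : ℝ) ^ 2 ≤ N ^ (2 * (δ / 100)) := by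
        have h3 : N ^ (2 * (δ / 100)) = (N ^ (δ / 100)) ^ 2 := by
          rw [← Real.rpow_natCast, ← Real.rpow_mul hN0.le]
          congr 1
          push_cast
          ring
        rw [h3]
        exact pow_le_pow_left₀ (by linarith) hd2 2
      calc N * (d : ℝ) ^ 2 ≤ N * N ^ (2 * (δ / 100)) := mul_le_mul_of_nonneg_left h2 hN0.le
        _ = N ^ (1 + 2 * (δ / 100)) := by
          rw [Real.rpow_add hN0, Real.rpow_one]
    rw [Finset.card_eq_sum_card_fiberwise hmaps]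
    push_cast
    refine (Finset.sum_le_sum hfib).trans ?_
    rw [Finset.sum_const, Nat.card_Icc, Nat.add_sub_cancel, nsmul_eq_mul]
    exact mul_le_mul_of_nonneg_right (Nat.floor_le (Real.rpow_nonneg hN0.le _))
      (Real.rpow_nonneg (Real.rpow_nonneg hN0.le _) _)
  have h2 : N ^ (δ / 100) * (N ^ (1 + 2 * (δ / 100))) ^ (1 - δ / 4) ≤ N ^ (1 - 11 * δ / 50) := by
    rw [← Real.rpow_mul hN0.le, ← Real.rpow_add hN0]
    refine Real.rpow_le_rpow_of_exponent_le hN3 ?_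
    nlinarith
  have h3 : 4 * N ^ (1 - 11 * δ / 50) ≤ N ^ (1 - δ / 8) := by
    calc 4 * N ^ (1 - 11 * δ / 50) ≤ N ^ (δ / 16) * N ^ (1 - 11 * δ / 50) :=
        mul_le_mul_of_nonneg_right h4δ (Real.rpow_nonneg hN0.le _)
      _ = N ^ (δ / 16 + (1 - 11 * δ / 50)) := (Real.rpow_add hN0 _ _).symm
      _ ≤ N ^ (1 - δ / 8) := Real.rpow_le_rpow_of_exponent_le hN3 (by linarith)
  linarith

end Pool.Agent.T6R
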